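import Pool.Agent.W519.GM.Crit

/-!
# Gamma values with exact denominator `q`: the lower bound `1 + φ(q)/2` fails

For `q = 14` (and for all positive multiples of `14`) the field generated by `π` and by the numbers
`Γ(a/q)` with `1 ≤ a ≤ q - 1` and `gcd(a, q) = 1` has transcendence degree at most `φ(q)/2`, so the
inequality `trdeg ≥ 1 + φ(q)/2` is false for these `q`. The reason for `q = 14` is a relation as
`Γ(1/14) Γ(9/14) Γ(11/14) = 4 π^(3/2)`.

In general: let `l` be a prime divisor of `q` and let `N` be the part of `q` prime to `l`. If `-1` is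
not a power of `l` modulo `N`, then the multiplication formula of Gauss shows that the product of all
`Γ(a/q)`, with `a` prime to `q` and congruent modulo `N` to a power of `l`, is algebraic over `ℚ(π)`,
and this relation does not follow from the reflection formula.
-/

namespace Pool.Agent.Results.MP_274814_nt.FailsForFourteen

open Pool.Agent.W519.GM

/-- The subfield of `ℂ` generated by `π` and by the numbers `Γ(a/q)` with `1 ≤ a ≤ q - 1` and
`gcd(a, q) = 1`. -/
noncomputable def F (q : ℕ) : IntermediateField ℚ ℂ :=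
  IntermediateField.adjoin ℚ ({(Real.pi : ℂ)} ∪
    {x : ℂ | ∃ a : ℕ, 1 ≤ a ∧ a ≤ q - 1 ∧ Nat.gcd a q = 1 ∧ x = Complex.Gamma ((a : ℂ) / (q : ℂ))})

theorem trdeg_F (q : ℕ) :
    Algebra.trdeg ℚ (F q) = Algebra.trdeg ℚ (IntermediateField.adjoin ℚ (gens q)) := by
  let f : ℝ →ₐ[ℚ] ℂ := (Complex.ofRealAm).restrictScalars ℚ
  have hf : ∀ x : ℝ, f x = (x : ℂ) := fun _ => rfl
  have h1 : (IntermediateField.adjoin ℚ (gens q)).map f = F q := by
    rw [IntermediateField.adjoin_map]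
    unfold F
    congr 1
    ext x
    constructor
    · rintro ⟨y, rfl | ⟨a, ha1, ha2, ha3, rfl⟩, rfl⟩
      · exact Or.inl rfl
      · refine Or.inr ⟨a, ha1, ha2, ha3, ?_⟩
        rw [hf, ← Complex.Gamma_ofReal]
        push_cast
        rfl
    · rintro (rfl | ⟨a, ha1, ha2, ha3, rfl⟩)
      · exact ⟨Real.pi, Or.inl rfl, rfl⟩
      · refine ⟨Real.Gamma ((a : ℝ) / q), Or.inr ⟨a, ha1, ha2, ha3, rfl⟩, ?_⟩
        rw [hf, ← Complex.Gamma_ofReal]
        push_cast
        rfl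
  rw [← h1]
  exact (AlgEquiv.trdeg_eq ((IntermediateField.adjoin ℚ (gens q)).equivMap f)).symm

theorem general {l N : ℕ} (v : ℕ) (hl : l.Prime) (hlN : Nat.Coprime l N)
    (hN : ∀ k : ℕ, ¬ N ∣ l ^ k + 1) :
    Algebra.trdeg ℚ (F (N * l ^ (v + 1))) ≤
      ((Nat.totient (N * l ^ (v + 1)) / 2 : ℕ) : Cardinal) := by
  rw [trdeg_F]
  exact criterion hl hlN hN rfl

theorem seven (k : ℕ) : ¬ 7 ∣ 2 ^ k + 1 := by
  have h : 2 ^ k % 7 = 1 ∨ 2 ^ k % 7 = 2 ∨ 2 ^ k % 7 = 4 := by
    induction k with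
    | zero => simp
    | succ k ih =>
      rw [pow_succ]
      omega
  omega

theorem multiples {q : ℕ} (hq : 0 < q) (h : 14 ∣ q) :
    Algebra.trdeg ℚ (F q) ≤ ((q.totient / 2 : ℕ) : Cardinal) := by
  have h2 : 2 ∣ q := Dvd.dvd.trans (by norm_num) h
  have h7 : 7 ∣ q := Dvd.dvd.trans (by norm_num) h
  obtain ⟨e, N, hN, hqN⟩ := Nat.exists_eq_two_pow_mul_odd hq.ne'
  have he : e ≠ 0 := by
    rintro rfl
    rw [pow_zero, one_mul] at hqN
    rw [hqN] at h2
    exact (Nat.not_even_iff_odd.2 hN) (even_iff_two_dvd.2 h2)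
  obtain ⟨v, rfl⟩ := Nat.exists_eq_succ_of_ne_zero he
  have h7N : 7 ∣ N := by
    rw [hqN] at h7
    exact Nat.Coprime.dvd_of_dvd_mul_left (Nat.Coprime.pow_right _ (by norm_num)) h7
  have h3 := general v Nat.prime_two (Nat.coprime_two_left.2 hN)
    (fun k hk => seven k (h7N.trans hk))
  rw [mul_comm] at h3
  rw [hqN]
  exact h3

/-- **The transcendence degree of `ℚ(π, Γ(a/q) : gcd(a, q) = 1)` is not always at least
`1 + φ(q)/2`**: it is at most `φ(q)/2` for `q = 14`, for all multiples of `14`, and in general if `q`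
has a prime divisor `l` such that `-1` is not a power of `l` modulo the part of `q` prime to `l`. -/
theorem result :
    (∃ q : ℕ, 2 < q ∧ Algebra.trdeg ℚ (F q) ≤ ((q.totient / 2 : ℕ) : Cardinal)) ∧
    ¬ (∀ q : ℕ, 2 < q → ((1 + q.totient / 2 : ℕ) : Cardinal) ≤ Algebra.trdeg ℚ (F q)) ∧
    (∀ q : ℕ, 0 < q → 14 ∣ q → Algebra.trdeg ℚ (F q) ≤ ((q.totient / 2 : ℕ) : Cardinal)) ∧
    (∀ l N v : ℕ, l.Prime → Nat.Coprime l N → (∀ k : ℕ, ¬ N ∣ l ^ k + 1) →
      Algebra.trdeg ℚ (F (N * l ^ (v + 1))) ≤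
        ((Nat.totient (N * l ^ (v + 1)) / 2 : ℕ) : Cardinal)) := by
  refine ⟨⟨14, by norm_num, multiples (by norm_num) dvd_rfl⟩, fun h => ?_,
    fun q hq h => multiples hq h, fun l N v hl hlN hN => general v hl hlN hN⟩
  have h1 := (h 14 (by norm_num)).trans (multiples (by norm_num) dvd_rfl)
  have h2 : 1 + Nat.totient 14 / 2 ≤ Nat.totient 14 / 2 := by exact_mod_cast h1
  omega

end Pool.Agent.Results.MP_274814_nt.FailsForFourteen
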